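import Pool.Agent.X268.HS.Main

set_option linter.unusedSectionVars false

open Module

namespace Pool.Agent.X268.HS

variable {A : Type} [Ring A] [Algebra ℚ A] [StarRing A] {m : ℕ} {X Y : LefMod A m}

section

variable (T : Type) [AddCommGroup T] [Module ℚ T] [Module A T] [IsScalarTower ℚ A T]
  [FiniteDimensional ℚ T]

/-- The first relation. -/
theorem rel_odd (hXY : JointPos X Y) (Φ : Isom X Y) {c : ℕ} (hc : m = 2 * c) :
    ∑ j ∈ Finset.range c, (1 + (-1) ^ j) * vv T X ((c : ℤ) - 1 - j) =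
      ∑ j ∈ Finset.range c, (1 + (-1) ^ j) * vv T Y ((c : ℤ) - 1 - j) := by
  have h := inertia T hXY Φ hc
  unfold ff aa at h
  rw [← Finset.sum_add_distrib, ← Finset.sum_add_distrib] at h
  simpa only [add_mul, one_mul] using h

/-- The second relation. -/
theorem rel_even (hXY : JointPos X Y) (Φ : Isom X Y) {c : ℕ} (hc : m = 2 * c) :
    vv T X c + ∑ j ∈ Finset.range c, (1 - (-1) ^ j) * vv T X ((c : ℤ) - 1 - j) =
      vv T Y c + ∑ j ∈ Finset.range c, (1 - (-1) ^ j) * vv T Y ((c : ℤ) - 1 - j) := by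
  have h := inertia T hXY Φ hc
  have h3 : (hm A T X.V : ℤ) = hm A T Y.V := by rw [hm_congr T Φ.φ]
  rw [total_eq T X hc, total_eq T Y hc] at h3
  have e : ∀ Z : LefMod A m, ∑ j ∈ Finset.range c, (1 - (-1) ^ j) * vv T Z ((c : ℤ) - 1 - j) =
      ff T Z c - aa T Z c := by
    intro Z
    unfold ff aa
    rw [← Finset.sum_sub_distrib]
    refine Finset.sum_congr rfl fun j _ => ?_
    ring
  rw [e, e]
  linarith

theorem vv_symm' (X : LefMod A m) (i : ℤ) (hi : 2 * i ≤ m) : vv T X (m - i) = vv T X i := by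
  have h := vv_symm T X (i := i) (k := (m - 2 * i).toNat) (by omega)
  rw [h]
  congr 1
  omega

/-- The multiplicities agree if they agree in small degrees; `m` even. -/
theorem vv_even (hXY : JointPos X Y) (Φ : Isom X Y) {c : ℕ} (hc : m = 2 * c)
    (h : ∀ i : ℤ, i + 2 ≤ c → vv T X i = vv T Y i) (i : ℤ) : vv T X i = vv T Y i := by
  -- degree `c - 1`
  have h1 : vv T X ((c : ℤ) - 1) = vv T Y ((c : ℤ) - 1) := by
    rcases Nat.eq_zero_or_pos c with h0 | h0
    · rw [vv_neg T X (by omega), vv_neg T Y (by omega)]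
    · have hr := rel_odd T hXY Φ hc
      have e : c = (c - 1) + 1 := by omega
      have e2 : ∀ Z : LefMod A m,
          ∑ j ∈ Finset.range c, (1 + (-1) ^ j) * vv T Z ((c : ℤ) - 1 - j) =
          ∑ j ∈ Finset.range (c - 1), (1 + (-1) ^ (j + 1)) * vv T Z ((c : ℤ) - 1 - (j + 1 : ℕ)) +
            2 * vv T Z ((c : ℤ) - 1) := by
        intro Z
        conv_lhs => rw [e]
        rw [Finset.sum_range_succ']
        congr 1
        · refine Finset.sum_congr rfl fun j _ => ?_
          congr 2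
          push_cast [h0]
          ring
        · simp only [pow_zero, Nat.cast_zero, sub_zero]
          have : (((c - 1 + 1 : ℕ) : ℤ)) = c := by rw [← e]
          rw [this]
          ring
      rw [e2, e2] at hr
      have e3 : ∑ j ∈ Finset.range (c - 1),
            (1 + (-1) ^ (j + 1)) * vv T X ((c : ℤ) - 1 - (j + 1 : ℕ)) =
          ∑ j ∈ Finset.range (c - 1),
            (1 + (-1) ^ (j + 1)) * vv T Y ((c : ℤ) - 1 - (j + 1 : ℕ)) := by
        refine Finset.sum_congr rfl fun j _ => ?_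
        rw [h _ (by push_cast; omega)]
      rw [e3] at hr
      linarith
  have h2 : ∀ i : ℤ, i < c → vv T X i = vv T Y i := by
    intro i hi
    rcases lt_or_ge i ((c : ℤ) - 1) with h3 | h3
    · exact h i (by omega)
    · have : i = (c : ℤ) - 1 := by omega
      rw [this]
      exact h1
  -- degree `c`
  have h4 : vv T X c = vv T Y c := by
    have h3 : (hm A T X.V : ℤ) = hm A T Y.V := by rw [hm_congr T Φ.φ]
    rw [total_eq T X hc, total_eq T Y hc] at h3
    have e : ff T X c = ff T Y c := by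
      unfold ff
      exact Finset.sum_congr rfl fun j _ => h2 _ (by omega)
    rw [e] at h3
    linarith
  rcases lt_trichotomy i c with h5 | h5 | h5
  · exact h2 i h5
  · rw [h5]; exact h4
  · have e1 := vv_symm' T X ((m : ℤ) - i) (by rw [hc]; push_cast; omega)
    have e2 := vv_symm' T Y ((m : ℤ) - i) (by rw [hc]; push_cast; omega)
    rw [sub_sub_cancel] at e1 e2
    rw [e1, e2]
    exact h2 _ (by rw [hc]; push_cast; omega)

/-- The multiplicities agree if they agree in small degrees; `m` odd. -/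
theorem vv_odd (φ : X.V ≃ₗ[A] Y.V) {c : ℕ} (hc : m = 2 * c + 1)
    (h : ∀ i : ℤ, i < c → vv T X i = vv T Y i) (i : ℤ) : vv T X i = vv T Y i := by
  have e1 : ∀ i : ℤ, (c : ℤ) + 1 < i → vv T X i = vv T Y i := by
    intro i hi
    have e1 := vv_symm' T X ((m : ℤ) - i) (by rw [hc]; push_cast; omega)
    have e2 := vv_symm' T Y ((m : ℤ) - i) (by rw [hc]; push_cast; omega)
    rw [sub_sub_cancel] at e1 e2
    rw [e1, e2]
    exact h _ (by rw [hc]; push_cast; omega)
  have e2 : ∀ Z : LefMod A m, vv T Z ((c : ℤ) + 1) = vv T Z c := by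
    intro Z
    have := vv_symm' T Z c (by rw [hc]; push_cast; omega)
    rw [← this]
    congr 1
    rw [hc]; push_cast; ring
  have h3 : (hm A T X.V : ℤ) = hm A T Y.V := by rw [hm_congr T φ]
  rw [total, total, ← sub_eq_zero, ← Finset.sum_sub_distrib] at h3
  have h4 : ∑ i ∈ Finset.Icc (0 : ℤ) m, (vv T X i - vv T Y i) =
      ∑ i ∈ ({(c : ℤ), (c : ℤ) + 1} : Finset ℤ), (vv T X i - vv T Y i) := by
    symm
    refine Finset.sum_subset ?_ ?_
    · intro i hi
      rw [Finset.mem_insert, Finset.mem_singleton] at hi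
      rw [Finset.mem_Icc, hc]
      push_cast
      omega
    · intro i _ hi
      rw [Finset.mem_insert, Finset.mem_singleton] at hi
      push Not at hi
      rcases lt_or_ge i c with h5 | h5
      · rw [h i h5, sub_self]
      · rw [e1 i (by omega), sub_self]
  rw [h4, Finset.sum_pair (by omega), e2, e2] at h3
  have h5 : vv T X c = vv T Y c := by linarith
  rcases lt_trichotomy i c with h6 | h6 | h6
  · exact h i h6
  · rw [h6]; exact h5
  · rcases lt_or_ge ((c : ℤ) + 1) i with h7 | h7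
    · exact e1 i h7
    · have : i = (c : ℤ) + 1 := by omega
      rw [this, e2, e2]
      exact h5

end

/-! ### Isomorphisms -/

instance sub_ss (X : LefMod A m) (N : Submodule A X.V) : IsSemisimpleModule A N := inferInstance

theorem vv_of_iso {i : ℤ} (h : Nonempty (X.deg i ≃ₗ[A] Y.deg i)) (T : Type) [AddCommGroup T]
    [Module ℚ T] [Module A T] [IsScalarTower ℚ A T] [FiniteDimensional ℚ T] :
    vv T X i = vv T Y i := by
  obtain ⟨e⟩ := h
  unfold vv hs
  rw [hm_congr T e]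

theorem iso_of_vv {i : ℤ} (h : ∀ (T : Type) [AddCommGroup T]
    [Module ℚ T] [Module A T] [IsScalarTower ℚ A T] [FiniteDimensional ℚ T],
    vv T X i = vv T Y i) : Nonempty (X.deg i ≃ₗ[A] Y.deg i) := by
  refine iso_of_hm _ (X.deg i) (Y.deg i) rfl ?_
  intro T _ _ _ _ _
  have := h T
  unfold vv hs at this
  exact_mod_cast this

/-- An isomorphism of graded modules. -/
theorem graded_iso (h : ∀ i : ℤ, Nonempty (X.deg i ≃ₗ[A] Y.deg i)) :
    ∃ Φ : X.V ≃ₗ[A] Y.V, ∀ (i : ℤ) (x : X.V), x ∈ X.deg i ↔ Φ x ∈ Y.deg i := by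
  classical
  have α : ∀ i : ℤ, X.deg i ≃ₗ[A] Y.deg i := fun i => Classical.choice (h i)
  have iX : DirectSum.IsInternal X.deg :=
    DirectSum.isInternal_submodule_of_iSupIndep_of_iSup_eq_top X.indep X.sup
  have iY : DirectSum.IsInternal Y.deg :=
    DirectSum.isInternal_submodule_of_iSupIndep_of_iSup_eq_top Y.indep Y.sup
  let eX := LinearEquiv.ofBijective (DirectSum.coeLinearMap X.deg) iX
  let eY := LinearEquiv.ofBijective (DirectSum.coeLinearMap Y.deg) iY
  let β : (DirectSum ℤ fun i => X.deg i) ≃ₗ[A] (DirectSum ℤ fun i => Y.deg i) :=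
    DFinsupp.mapRange.linearEquiv α
  let Φ : X.V ≃ₗ[A] Y.V := eX.symm.trans (β.trans eY)
  have hX : ∀ (i : ℤ) (x : X.deg i), eX (DirectSum.lof A ℤ (fun i => X.deg i) i x) = x :=
    fun i x => DirectSum.coeLinearMap_lof X.deg i x
  have hY : ∀ (i : ℤ) (x : Y.deg i), eY (DirectSum.lof A ℤ (fun i => Y.deg i) i x) = x :=
    fun i x => DirectSum.coeLinearMap_lof Y.deg i x
  have hβ : ∀ (i : ℤ) (x : X.deg i), β (DirectSum.lof A ℤ (fun i => X.deg i) i x) =
      DirectSum.lof A ℤ (fun i => Y.deg i) i (α i x) := fun i x =>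
    DFinsupp.mapRange_single (hf := fun i => map_zero (α i))
  have hΦ : ∀ (i : ℤ) (x : X.deg i), Φ x = α i x := by
    intro i x
    show eY (β (eX.symm x)) = _
    have : eX.symm x = DirectSum.lof A ℤ (fun i => X.deg i) i x := by
      rw [LinearEquiv.symm_apply_eq, hX]
    rw [this, hβ, hY]
  refine ⟨Φ, fun i x => ⟨fun hx => ?_, fun hx => ?_⟩⟩
  · rw [hΦ i ⟨x, hx⟩]
    exact (α i ⟨x, hx⟩).2
  · have h1 : Φ ((α i).symm ⟨Φ x, hx⟩ : X.deg i) = Φ x := by
      rw [hΦ, LinearEquiv.apply_symm_apply]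
    have h2 := Φ.injective h1
    rw [← h2]
    exact ((α i).symm ⟨Φ x, hx⟩).2

/-- The isomorphism theorem, `m` even. -/
theorem iso_even (hXY : JointPos X Y) (Φ : Isom X Y) {c : ℕ} (hc : m = 2 * c)
    (h : ∀ i : ℤ, 0 ≤ i → i + 2 ≤ c → Nonempty (X.deg i ≃ₗ[A] Y.deg i)) :
    ∃ Ψ : X.V ≃ₗ[A] Y.V, ∀ (i : ℤ) (x : X.V), x ∈ X.deg i ↔ Ψ x ∈ Y.deg i := by
  refine graded_iso fun i => iso_of_vv ?_
  intro T _ _ _ _ _
  refine vv_even T hXY Φ hc (fun i hi => ?_) i
  rcases lt_or_ge i 0 with h0 | h0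
  · rw [vv_neg T X h0, vv_neg T Y h0]
  · exact vv_of_iso (h i h0 hi) T

/-- The isomorphism theorem, `m` odd. -/
theorem iso_odd (φ : X.V ≃ₗ[A] Y.V) {c : ℕ} (hc : m = 2 * c + 1)
    (h : ∀ i : ℤ, 0 ≤ i → i < c → Nonempty (X.deg i ≃ₗ[A] Y.deg i)) :
    ∃ Ψ : X.V ≃ₗ[A] Y.V, ∀ (i : ℤ) (x : X.V), x ∈ X.deg i ↔ Ψ x ∈ Y.deg i := by
  refine graded_iso fun i => iso_of_vv ?_
  intro T _ _ _ _ _
  refine vv_odd T φ hc (fun i hi => ?_) i
  rcases lt_or_ge i 0 with h0 | h0
  · rw [vv_neg T X h0, vv_neg T Y h0]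
  · exact vv_of_iso (h i h0 hi) T

end Pool.Agent.X268.HS
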