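import Pool.Agent.X268.HS.Hom

set_option linter.unusedSectionVars false

open Module

namespace Pool.Agent.X268.HS

/-- A finite dimensional semisimple module over a `ℚ`-algebra `A`, with submodules `deg i`, an
endomorphism `L` and two bilinear forms `B` and `σ`. -/
structure LData (A : Type) [Ring A] [Algebra ℚ A] where
  V : Type
  [acg : AddCommGroup V]
  [modQ : Module ℚ V]
  [modA : Module A V]
  [tower : IsScalarTower ℚ A V]
  [fin : FiniteDimensional ℚ V]
  [ss : IsSemisimpleModule A V]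
  deg : ℤ → Submodule A V
  /-- the Lefschetz operator -/
  L : V →ₗ[A] V
  /-- the Mukai pairing -/
  B : V →ₗ[ℚ] V →ₗ[ℚ] ℚ
  /-- the Hodge-Riemann polarisation -/
  σ : V →ₗ[ℚ] V →ₗ[ℚ] ℚ

attribute [instance] LData.acg LData.modQ LData.modA LData.tower LData.fin LData.ss

namespace LData

section

variable {A : Type} [Ring A] [Algebra ℚ A] (X : LData A)

/-- The action of `a`. -/
def act (a : A) (x : X.V) : X.V := a • x

/-- `x` has degree `i`. -/
def InDeg (i : ℤ) (x : X.V) : Prop := x ∈ X.deg i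

/-- `L x`. -/
def l (x : X.V) : X.V := X.L x

/-- `L ^ k x`. -/
def lp (k : ℕ) (x : X.V) : X.V := (X.L ^ k) x

/-- `B(x, y)`. -/
def b (x y : X.V) : ℚ := X.B x y

/-- `σ(x, y)`. -/
def s (x y : X.V) : ℚ := X.σ x y

/-- `V` is graded by the `deg i`, `0 ≤ i ≤ m`. -/
structure IsGraded (m : ℕ) : Prop where
  indep : iSupIndep X.deg
  sup : ⨆ i, X.deg i = ⊤
  van : ∀ i : ℤ, i < 0 ∨ m < i → X.deg i = ⊥

/-- `L` satisfies the hard Lefschetz theorem. -/
structure HardLefschetz (m : ℕ) : Prop where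
  L_mem : ∀ (i : ℤ) (x : X.V), X.InDeg i x → X.InDeg (i + 1) (X.l x)
  hl_inj : ∀ (i : ℤ) (k : ℕ), 2 * i + k = m → ∀ x, X.InDeg i x → X.lp k x = 0 → x = 0
  hl_surj : ∀ (i : ℤ) (k : ℕ), 2 * i + k = m → ∀ y, X.InDeg (i + k) y →
    ∃ x, X.InDeg i x ∧ X.lp k x = y

end

section

variable {A : Type} [Ring A] [Algebra ℚ A] [StarRing A] (X : LData A)

/-- The properties of the Mukai pairing. -/
structure Mukai (m : ℕ) : Prop where
  B_star : ∀ (a : A) (x y : X.V), X.b (X.act a x) y = X.b x (X.act (star a) y)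
  B_tri : ∀ i j : ℤ, m < i + j → ∀ x y, X.InDeg i x → X.InDeg j y → X.b x y = 0
  B_skew : ∀ i j : ℤ, i + j + 1 = m → ∀ x y, X.InDeg i x → X.InDeg j y →
    X.b (X.l x) y = -X.b x (X.l y)
  B_nondeg : ∀ (i : ℤ) (x : X.V), X.InDeg i x → (∀ y, X.InDeg (m - i) y → X.b x y = 0) → x = 0

/-- `x` is a primitive class of degree `i`, with `2 i + k = m`. -/
def Primitive (i : ℤ) (k : ℕ) (x : X.V) : Prop := X.InDeg i x ∧ X.lp (k + 1) x = 0

/-- The properties of the polarisation: it respects the Lefschetz decomposition, and on the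
primitive classes it is given by the Mukai pairing. -/
structure Polarised (m : ℕ) : Prop where
  σ_star : ∀ (a : A) (x y : X.V), X.s (X.act a x) y = X.s x (X.act (star a) y)
  σ_L : ∀ i : ℤ, 2 * i + 2 ≤ m → ∀ x y, X.InDeg i x → X.InDeg i y →
    X.s (X.l x) (X.l y) = X.s x y
  σ_prim : ∀ (i : ℤ) (k : ℕ), 2 * i + k = m → ∀ x y, X.Primitive i k x → X.InDeg (i - 1) y →
    X.s x (X.l y) = 0 ∧ X.s (X.l y) x = 0
  hr : ∀ (i : ℤ) (k : ℕ), 2 * i + k = m → ∀ x y, X.Primitive i k x → X.Primitive i k y →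
    X.b x (X.lp k y) = X.s x y

end

end LData

/-- A polarised Lefschetz module of top degree `m` over a `ℚ`-algebra `A` with involution, with a
triangular form `B`.  In the application the modules over `A` are the rational Hodge structures of
weight `0` or `1` (or the motives) which are subquotients of the cohomology of the varieties
considered, `deg i = H^{2 i}(X)(i)` (or `H^{2 i + 1}(X)(i)`), `L` is the Lefschetz operator, `B` the
Mukai pairing and `σ` the Hodge-Riemann polarisation. -/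
structure LefMod (A : Type) [Ring A] [Algebra ℚ A] [StarRing A] (m : ℕ) extends LData A where
  gr : toLData.IsGraded m
  lef : toLData.HardLefschetz m
  muk : toLData.Mukai m
  pol : toLData.Polarised m

variable {A : Type} [Ring A] [Algebra ℚ A] [StarRing A] {m : ℕ}

namespace LefMod

theorem indep (X : LefMod A m) : iSupIndep X.deg := X.gr.indep
theorem sup (X : LefMod A m) : ⨆ i, X.deg i = ⊤ := X.gr.sup
theorem van (X : LefMod A m) : ∀ i : ℤ, i < 0 ∨ m < i → X.deg i = ⊥ := X.gr.van
theorem L_mem (X : LefMod A m) : ∀ i : ℤ, ∀ x ∈ X.deg i, X.L x ∈ X.deg (i + 1) := X.lef.L_mem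
theorem hl_inj (X : LefMod A m) : ∀ (i : ℤ) (k : ℕ), 2 * i + k = m → ∀ x ∈ X.deg i,
    (X.L ^ k) x = 0 → x = 0 := X.lef.hl_inj
theorem hl_surj (X : LefMod A m) : ∀ (i : ℤ) (k : ℕ), 2 * i + k = m → ∀ y ∈ X.deg (i + k),
    ∃ x ∈ X.deg i, (X.L ^ k) x = y := X.lef.hl_surj
theorem B_star (X : LefMod A m) : ∀ (a : A) (x y : X.V), X.B (a • x) y = X.B x (star a • y) :=
  X.muk.B_star
theorem B_tri (X : LefMod A m) : ∀ i j : ℤ, m < i + j → ∀ x ∈ X.deg i, ∀ y ∈ X.deg j,
    X.B x y = 0 := fun i j h x hx y hy => X.muk.B_tri i j h x y hx hy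
theorem B_skew (X : LefMod A m) : ∀ i j : ℤ, i + j + 1 = m → ∀ x ∈ X.deg i, ∀ y ∈ X.deg j,
    X.B (X.L x) y = -X.B x (X.L y) := fun i j h x hx y hy => X.muk.B_skew i j h x y hx hy
theorem B_nondeg (X : LefMod A m) : ∀ i : ℤ, ∀ x ∈ X.deg i,
    (∀ y ∈ X.deg (m - i), X.B x y = 0) → x = 0 := X.muk.B_nondeg
theorem σ_star (X : LefMod A m) : ∀ (a : A) (x y : X.V), X.σ (a • x) y = X.σ x (star a • y) :=
  X.pol.σ_star
theorem σ_L (X : LefMod A m) : ∀ i : ℤ, 2 * i + 2 ≤ m → ∀ x ∈ X.deg i, ∀ y ∈ X.deg i,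
    X.σ (X.L x) (X.L y) = X.σ x y := fun i h x hx y hy => X.pol.σ_L i h x y hx hy
theorem σ_prim (X : LefMod A m) : ∀ (i : ℤ) (k : ℕ), 2 * i + k = m → ∀ x ∈ X.deg i,
    (X.L ^ (k + 1)) x = 0 → ∀ y ∈ X.deg (i - 1), X.σ x (X.L y) = 0 ∧ X.σ (X.L y) x = 0 :=
  fun i k h x hx h0 y hy => X.pol.σ_prim i k h x y ⟨hx, h0⟩ hy
theorem hr (X : LefMod A m) : ∀ (i : ℤ) (k : ℕ), 2 * i + k = m → ∀ x ∈ X.deg i,
    (X.L ^ (k + 1)) x = 0 → ∀ y ∈ X.deg i, (X.L ^ (k + 1)) y = 0 →
    X.B x ((X.L ^ k) y) = X.σ x y :=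
  fun i k h x hx h0 y hy h0' => X.pol.hr i k h x y ⟨hx, h0⟩ ⟨hy, h0'⟩

end LefMod

/-- The homomorphisms from a module `Z` to `V`. -/
abbrev LData.From (X : LData A) (Z : Type) [AddCommGroup Z] [Module A Z] : Type := Z →ₗ[A] X.V

/-- The value of a homomorphism. -/
def LData.val {X : LData A} {Z : Type} [AddCommGroup Z] [Module A Z] (u : X.From Z) (z : Z) :
    X.V := u z

/-- Positivity of the polarisations of `X` and `Y`: if the sum of the inverse images of `σ_X` and of
`σ_Y` under homomorphisms `u` and `v` is zero, then `u = 0` and `v = 0`. -/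
def JointPos (X Y : LefMod A m) : Prop :=
  ∀ (Z : Type) [AddCommGroup Z] [Module A Z] (u : X.From Z) (v : Y.From Z),
    (∀ x y, X.s (LData.val u x) (LData.val u y) + Y.s (LData.val v x) (LData.val v y) = 0) →
    ∀ z, LData.val u z = 0 ∧ LData.val v z = 0

/-- The isomorphisms of modules over `A`. -/
abbrev LData.Iso (X Y : LData A) : Type := X.V ≃ₗ[A] Y.V

/-- The value of an isomorphism. -/
def LData.map {X Y : LData A} (φ : X.Iso Y) (x : X.V) : Y.V := φ x

/-- An isomorphism which is an isometry for the Mukai pairings (and need not respect the degree). -/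
structure Isom (X Y : LefMod A m) where
  φ : X.Iso Y.toLData
  isom' : ∀ x y, Y.b (LData.map φ x) (LData.map φ y) = X.b x y

theorem JointPos.use {X Y : LefMod A m} (h : JointPos X Y) (Z : Type) [AddCommGroup Z] [Module A Z]
    (u : Z →ₗ[A] X.V) (v : Z →ₗ[A] Y.V)
    (h0 : ∀ x y, X.σ (u x) (u y) + Y.σ (v x) (v y) = 0) : u = 0 ∧ v = 0 := by
  have := h Z u v h0
  exact ⟨LinearMap.ext fun z => (this z).1, LinearMap.ext fun z => (this z).2⟩

theorem Isom.isom {X Y : LefMod A m} (Φ : Isom X Y) (x y : X.V) :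
    Y.B (Φ.φ x) (Φ.φ y) = X.B x y := Φ.isom' x y

/-- The multiplicity function `i ↦ dim Hom_A(T, deg i)`. -/
noncomputable def vv (T : Type) [AddCommGroup T] [Module ℚ T] [Module A T] [IsScalarTower ℚ A T]
    [FiniteDimensional ℚ T] (X : LefMod A m) (i : ℤ) : ℤ := hs T (X.deg i)

variable {X Y : LefMod A m}

theorem L_pow_mem (X : LefMod A m) (k : ℕ) {i : ℤ} {x : X.V} (hx : x ∈ X.deg i) :
    (X.L ^ k) x ∈ X.deg (i + k) := by
  induction k with
  | zero => simpa using hx
  | succ k ih =>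
    rw [pow_succ', Module.End.mul_apply]
    have := X.L_mem _ _ ih
    have e : i + (k : ℤ) + 1 = i + ((k + 1 : ℕ) : ℤ) := by push_cast; ring
    rwa [e] at this

section

variable (T : Type) [AddCommGroup T] [Module ℚ T] [Module A T] [IsScalarTower ℚ A T]
  [FiniteDimensional ℚ T]

theorem hs_finset {W : Type} [AddCommGroup W] [Module ℚ W] [Module A W] [IsScalarTower ℚ A W]
    [FiniteDimensional ℚ W] {ι : Type} (D : ι → Submodule A W) (hD : iSupIndep D)
    (s : Finset ι) : hs T (⨆ i ∈ s, D i : Submodule A W) = ∑ i ∈ s, hs T (D i) := by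
  classical
  induction s using Finset.induction_on with
  | empty => simp [hs_bot]
  | insert a s ha ih =>
    rw [Finset.iSup_insert, Finset.sum_insert ha, ← ih]
    have hd : Disjoint (D a) (⨆ i ∈ s, D i) := by
      have := hD.disjoint_biSup (x := a) (y := (s : Set ι)) (by simpa using ha)
      simpa using this
    exact hs_sup T hd.eq_bot

theorem hs_fam (X : LefMod A m) (D : ℤ → Submodule A X.V) (hD : ∀ i, D i ≤ X.deg i) :
    (hs T (⨆ i, D i : Submodule A X.V) : ℤ) = ∑ i ∈ Finset.Icc (0 : ℤ) m, (hs T (D i) : ℤ) := by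
  have e : (⨆ i, D i) = ⨆ i ∈ Finset.Icc (0 : ℤ) m, D i := by
    apply le_antisymm
    · refine iSup_le fun i => ?_
      by_cases hi : i ∈ Finset.Icc (0 : ℤ) m
      · exact le_iSup₂ (f := fun i (_ : i ∈ Finset.Icc (0 : ℤ) m) => D i) i hi
      · have h := hD i
        rw [X.van i (by rw [Finset.mem_Icc] at hi; omega)] at h
        exact h.trans bot_le
    · exact iSup₂_le fun i _ => le_iSup D i
  rw [e, hs_finset T D (X.indep.mono hD)]
  push_cast
  rfl

/-- Symmetry of the multiplicities. -/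
theorem vv_symm (X : LefMod A m) {i : ℤ} {k : ℕ} (h : 2 * i + k = m) :
    vv T X i = vv T X (i + k) := by
  unfold vv
  have e : (X.deg i).map (X.L ^ k : X.V →ₗ[A] X.V) = X.deg (i + k) := by
    apply le_antisymm
    · rintro _ ⟨x, hx, rfl⟩
      exact L_pow_mem X k hx
    · intro y hy
      obtain ⟨x, hx, hxy⟩ := X.hl_surj i k h y hy
      exact ⟨x, hx, hxy⟩
  rw [← e, hs_map T _ _ fun x hx h0 => X.hl_inj i k h x hx h0]

end

/-! ### Orthogonal complements -/

/-- The orthogonal complement for `B`. -/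
def perp (X : LefMod A m) (N : Submodule A X.V) : Submodule A X.V where
  carrier := {y | ∀ x ∈ N, X.B x y = 0}
  add_mem' := fun {y z} hy hz x hx => by rw [map_add, hy x hx, hz x hx, add_zero]
  zero_mem' := fun x _ => map_zero _
  smul_mem' := fun a y hy x hx => by
    have h := X.B_star (star a) x y
    rw [star_star] at h
    rw [← h]
    exact hy _ (N.smul_mem _ hx)

/-- The orthogonal complement for `σ`. -/
def perpσ (X : LefMod A m) (N : Submodule A X.V) : Submodule A X.V where
  carrier := {y | ∀ x ∈ N, X.σ x y = 0}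
  add_mem' := fun {y z} hy hz x hx => by rw [map_add, hy x hx, hz x hx, add_zero]
  zero_mem' := fun x _ => map_zero _
  smul_mem' := fun a y hy x hx => by
    have h := X.σ_star (star a) x y
    rw [star_star] at h
    rw [← h]
    exact hy _ (N.smul_mem _ hx)

theorem mem_perp {N : Submodule A X.V} {y : X.V} : y ∈ perp X N ↔ ∀ x ∈ N, X.B x y = 0 := Iff.rfl

theorem mem_perpσ {N : Submodule A X.V} {y : X.V} :
    y ∈ perpσ X N ↔ ∀ x ∈ N, X.σ x y = 0 := Iff.rfl

/-- `B` is nondegenerate. -/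
theorem B_nondeg' (X : LefMod A m) {x : X.V} (h : ∀ y, X.B x y = 0) : x = 0 := by
  classical
  have hx : x ∈ ⨆ i, X.deg i := by rw [X.sup]; trivial
  rw [Submodule.mem_iSup_iff_exists_finsupp] at hx
  obtain ⟨f, hf, hfx⟩ := hx
  by_contra hne
  have hsupp : f.support.Nonempty := by
    rw [Finset.nonempty_iff_ne_empty]
    intro h0
    apply hne
    rw [← hfx, Finsupp.sum, h0, Finset.sum_empty]
  set i₀ := f.support.min' hsupp with hi₀
  have hi₀m : i₀ ∈ f.support := Finset.min'_mem _ _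
  apply Finsupp.mem_support_iff.mp hi₀m
  refine X.B_nondeg i₀ _ (hf i₀) fun y hy => ?_
  have h1 := h y
  rw [← hfx, Finsupp.sum, map_sum, LinearMap.sum_apply, Finset.sum_eq_single i₀] at h1
  · exact h1
  · intro j hj hji
    have h2 : i₀ ≤ j := Finset.min'_le _ _ hj
    exact X.B_tri j (m - i₀) (by omega) _ (hf j) _ hy
  · intro h2
    exact absurd hi₀m h2

/-- `σ` is nondegenerate on every submodule. -/
theorem σ_nondeg (hXY : JointPos X Y) (N : Submodule A X.V) {x : X.V} (hx : x ∈ N)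
    (h : ∀ y ∈ N, X.σ x y = 0) : x = 0 := by
  -- the radical of `N`
  let R : Submodule A X.V :=
    { carrier := {x | x ∈ N ∧ ∀ y ∈ N, X.σ x y = 0}
      add_mem' := fun {y z} hy hz => ⟨N.add_mem hy.1 hz.1, fun w hw => by
        rw [map_add, LinearMap.add_apply, hy.2 w hw, hz.2 w hw, add_zero]⟩
      zero_mem' := ⟨N.zero_mem, fun w _ => by rw [map_zero, LinearMap.zero_apply]⟩
      smul_mem' := fun a y hy => ⟨N.smul_mem a hy.1, fun w hw => by
        rw [X.σ_star]
        exact hy.2 _ (N.smul_mem _ hw)⟩ }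
  have h1 := (hXY.use R R.subtype 0 (fun y z => by
    rw [LinearMap.zero_apply, map_zero, LinearMap.zero_apply, add_zero]
    exact y.2.2 z z.2.1)).1
  have h2 := LinearMap.congr_fun h1 ⟨x, hx, h⟩
  exact h2

theorem isCompl_perpσ (hXY : JointPos X Y) (N : Submodule A X.V) : IsCompl N (perpσ X N) := by
  have hdis : N ⊓ perpσ X N = ⊥ := by
    rw [eq_bot_iff]
    rintro x ⟨hx1, hx2⟩
    -- use the module `N ⊓ N^⊥`
    rw [Submodule.mem_bot]
    refine σ_nondeg hXY (N ⊓ perpσ X N) ⟨hx1, hx2⟩ fun y hy => ?_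
    exact hy.2 x hx1
  -- dimension
  let g : X.V →ₗ[ℚ] Dual ℚ N :=
    { toFun := fun y =>
        { toFun := fun x => X.σ (x : X.V) y
          map_add' := fun a b => by simp
          map_smul' := fun r a => by
            have : ((r • a : N) : X.V) = r • (a : X.V) := rfl
            rw [this, map_smul, LinearMap.smul_apply]
            rfl }
      map_add' := fun a b => by ext x; simp
      map_smul' := fun r a => by ext x; simp }
  have hker : ∀ y, y ∈ LinearMap.ker g ↔ y ∈ perpσ X N := by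
    intro y
    rw [LinearMap.mem_ker]
    constructor
    · intro h x hx
      exact LinearMap.congr_fun h ⟨x, hx⟩
    · intro h
      ext x
      exact h x x.2
  have h1 := LinearMap.finrank_range_add_finrank_ker g
  have h2 := Submodule.finrank_le (LinearMap.range g)
  rw [Subspace.dual_finrank_eq] at h2
  have e : finrank ℚ (LinearMap.ker g) = finrank ℚ (perpσ X N) := by
    have : LinearMap.ker g = (perpσ X N).restrictScalars ℚ := by
      ext y
      exact hker y
    rw [this]
    rfl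
  have hN : finrank ℚ (N.restrictScalars ℚ : Submodule ℚ X.V) = finrank ℚ N := rfl
  have hP : finrank ℚ ((perpσ X N).restrictScalars ℚ : Submodule ℚ X.V) =
      finrank ℚ (perpσ X N) := rfl
  have hinf : (N.restrictScalars ℚ : Submodule ℚ X.V) ⊓ (perpσ X N).restrictScalars ℚ = ⊥ := by
    rw [eq_bot_iff]
    rintro x ⟨hx1, hx2⟩
    have : x ∈ N ⊓ perpσ X N := ⟨hx1, hx2⟩
    rw [hdis] at this
    exact this
  have h3 := Submodule.finrank_sup_add_finrank_inf_eq (N.restrictScalars ℚ : Submodule ℚ X.V)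
    ((perpσ X N).restrictScalars ℚ)
  rw [hinf, finrank_bot, add_zero, hN, hP] at h3
  have h4 : (N.restrictScalars ℚ : Submodule ℚ X.V) ⊔ (perpσ X N).restrictScalars ℚ = ⊤ := by
    apply Submodule.eq_top_of_finrank_eq
    have h5 := Submodule.finrank_le
      ((N.restrictScalars ℚ : Submodule ℚ X.V) ⊔ (perpσ X N).restrictScalars ℚ)
    omega
  constructor
  · rw [disjoint_iff]
    exact hdis
  · rw [codisjoint_iff, eq_top_iff]
    intro x _
    have hx : x ∈ (N.restrictScalars ℚ : Submodule ℚ X.V) ⊔ (perpσ X N).restrictScalars ℚ := by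
      rw [h4]; trivial
    rw [Submodule.mem_sup] at hx ⊢
    exact hx

/-- The dimensions for the orthogonal complement. -/
theorem hs_perp (T : Type) [AddCommGroup T] [Module ℚ T] [Module A T] [IsScalarTower ℚ A T]
    [FiniteDimensional ℚ T] (hXY : JointPos X Y) (N : Submodule A X.V) :
    hs T (perp X N) + hs T N = hm A T X.V := by
  -- the map `t` with `σ (t x) y = B x y`
  have hinj : Function.Injective X.σ := by
    rw [injective_iff_map_eq_zero]
    intro x hx
    exact σ_nondeg hXY ⊤ (Submodule.mem_top : x ∈ ⊤) fun y _ => LinearMap.congr_fun hx y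
  have hbij : Function.Bijective (X.σ : X.V →ₗ[ℚ] Dual ℚ X.V) :=
    ⟨hinj, (LinearMap.injective_iff_surjective_of_finrank_eq_finrank
      (Subspace.dual_finrank_eq.symm)).mp hinj⟩
  let e : X.V ≃ₗ[ℚ] Dual ℚ X.V := LinearEquiv.ofBijective _ hbij
  have he : ∀ (f : Dual ℚ X.V) (y : X.V), X.σ (e.symm f) y = f y := by
    intro f y
    have : e (e.symm f) = f := e.apply_symm_apply f
    exact LinearMap.congr_fun this y
  let t : X.V →ₗ[A] X.V :=
    { toFun := fun x => e.symm (X.B x)
      map_add' := fun x y => by rw [map_add, map_add]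
      map_smul' := fun a x => by
        apply e.injective
        rw [LinearEquiv.apply_symm_apply]
        refine LinearMap.ext fun y => ?_
        show X.B (a • x) y = X.σ (a • e.symm (X.B x)) y
        rw [X.B_star, X.σ_star, he] }
  have ht : ∀ x y, X.σ (t x) y = X.B x y := fun x y => he (X.B x) y
  have h1 : perp X N = perpσ X (N.map t) := by
    ext y
    rw [mem_perp, mem_perpσ]
    constructor
    · rintro h _ ⟨x, hx, rfl⟩
      rw [ht]
      exact h x hx
    · intro h x hx
      rw [← ht]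
      exact h _ ⟨x, hx, rfl⟩
  have h2 : hs T (N.map t) = hs T N := by
    refine hs_map T t N fun x _ hx => ?_
    refine B_nondeg' X fun y => ?_
    rw [← ht, hx, map_zero, LinearMap.zero_apply]
  rw [h1, ← h2, add_comm]
  exact hs_sub_of_compl T (isCompl_perpσ hXY (N.map t))

end Pool.Agent.X268.HS
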