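import Mathlib

set_option linter.unusedSectionVars false

open Module

namespace Pool.Agent.X268.HS

/-! ### Dimensions of spaces of homomorphisms between modules over a `ℚ`-algebra -/

section

variable {A : Type*} [Ring A] [Algebra ℚ A]
variable (T : Type*) [AddCommGroup T] [Module ℚ T] [Module A T] [IsScalarTower ℚ A T]
  [FiniteDimensional ℚ T]
variable {W W' : Type*} [AddCommGroup W] [Module ℚ W] [Module A W] [IsScalarTower ℚ A W]
  [FiniteDimensional ℚ W] [AddCommGroup W'] [Module ℚ W'] [Module A W'] [IsScalarTower ℚ A W']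
  [FiniteDimensional ℚ W']

/-- `dim Hom_A(T, W)`. -/
noncomputable def hm (A : Type*) [Ring A] [Algebra ℚ A] (T : Type*) [AddCommGroup T] [Module A T]
    (W : Type*) [AddCommGroup W] [Module ℚ W] [Module A W] [IsScalarTower ℚ A W] : ℕ :=
  finrank ℚ (T →ₗ[A] W)

instance hom_fin : FiniteDimensional ℚ (T →ₗ[A] W) := by
  let f : (T →ₗ[A] W) →ₗ[ℚ] (T →ₗ[ℚ] W) :=
    { toFun := fun g => g.restrictScalars ℚ
      map_add' := fun _ _ => rfl
      map_smul' := fun _ _ => rfl }
  refine FiniteDimensional.of_injective f ?_
  intro g h hgh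
  ext x
  exact LinearMap.congr_fun hgh x

theorem hm_le_of_injective (f : W →ₗ[A] W') (hf : Function.Injective f) :
    hm A T W ≤ hm A T W' := by
  let F : (T →ₗ[A] W) →ₗ[ℚ] (T →ₗ[A] W') :=
    { toFun := fun g => f ∘ₗ g
      map_add' := fun g h => by ext x; simp
      map_smul' := fun r g => by
        ext x
        show f (r • g x) = r • f (g x)
        rw [← algebraMap_smul A r (g x), map_smul, algebraMap_smul] }
  refine LinearMap.finrank_le_finrank_of_injective (f := F) ?_
  intro g h hgh
  ext x
  apply hf
  exact LinearMap.congr_fun hgh x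

theorem hm_congr (e : W ≃ₗ[A] W') : hm A T W = hm A T W' :=
  le_antisymm (hm_le_of_injective T e.toLinearMap e.injective)
    (hm_le_of_injective T e.symm.toLinearMap e.symm.injective)

theorem hm_prod : hm A T (W × W') = hm A T W + hm A T W' := by
  unfold hm
  rw [← (LinearMap.prodEquiv (R := A) (M := T) (M₂ := W) (M₃ := W') ℚ).finrank_eq, finrank_prod]

end

section

variable {A : Type*} [Ring A] [Algebra ℚ A]
variable (T : Type*) [AddCommGroup T] [Module ℚ T] [Module A T] [IsScalarTower ℚ A T]
  [FiniteDimensional ℚ T]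
variable {V V' : Type*} [AddCommGroup V] [Module ℚ V] [Module A V] [IsScalarTower ℚ A V]
  [FiniteDimensional ℚ V] [AddCommGroup V'] [Module ℚ V'] [Module A V'] [IsScalarTower ℚ A V']
  [FiniteDimensional ℚ V']

instance sub_fin (N : Submodule A V) : FiniteDimensional ℚ N :=
  FiniteDimensional.of_injective ((N.subtype).restrictScalars ℚ) N.injective_subtype

/-- `dim Hom_A(T, N)` for a submodule `N`. -/
noncomputable def hs (N : Submodule A V) : ℕ := hm A T N

theorem hs_mono {N M : Submodule A V} (h : N ≤ M) : hs T N ≤ hs T M :=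
  hm_le_of_injective T (Submodule.inclusion h) (Submodule.inclusion_injective h)

theorem hs_bot : hs T (⊥ : Submodule A V) = 0 := by
  unfold hs hm
  have : Subsingleton (T →ₗ[A] (⊥ : Submodule A V)) := ⟨fun f g => LinearMap.ext fun x => by
    have h1 := (f x).2
    have h2 := (g x).2
    rw [Submodule.mem_bot] at h1 h2
    exact Subtype.ext (h1.trans h2.symm)⟩
  exact finrank_zero_of_subsingleton

theorem hs_top : hs T (⊤ : Submodule A V) = hm A T V := hm_congr T Submodule.topEquiv

theorem hs_sup {N M : Submodule A V} (h : N ⊓ M = ⊥) : hs T (N ⊔ M) = hs T N + hs T M := by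
  let f : (N × M) →ₗ[A] V := N.subtype.coprod M.subtype
  have hf : Function.Injective f := by
    rw [injective_iff_map_eq_zero]
    rintro ⟨x, y⟩ hxy
    have hxy' : (x : V) + (y : V) = 0 := hxy
    have hx : (x : V) ∈ N ⊓ M := by
      refine ⟨x.2, ?_⟩
      have : (x : V) = -(y : V) := by rw [eq_neg_iff_add_eq_zero]; exact hxy'
      rw [this]
      exact M.neg_mem y.2
    rw [h, Submodule.mem_bot] at hx
    have hy : (y : V) = 0 := by rw [hx, zero_add] at hxy'; exact hxy'
    ext
    · exact hx
    · exact hy
  have hr : LinearMap.range f = N ⊔ M := by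
    rw [LinearMap.range_coprod, Submodule.range_subtype, Submodule.range_subtype]
  have e := LinearEquiv.ofInjective f hf
  rw [hr] at e
  unfold hs
  rw [← hm_congr T e, hm_prod]

theorem hs_map (f : V →ₗ[A] V') (N : Submodule A V) (h : ∀ x ∈ N, f x = 0 → x = 0) :
    hs T (N.map f) = hs T N := by
  have hinj : Function.Injective (f.domRestrict N) := by
    rw [injective_iff_map_eq_zero]
    intro x hx
    exact Subtype.ext (h x x.2 hx)
  have e := LinearEquiv.ofInjective (f.domRestrict N) hinj
  rw [LinearMap.range_domRestrict] at e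
  unfold hs
  exact (hm_congr T e).symm

/-- The modular law. -/
theorem hs_modular [IsSemisimpleModule A V] (N M : Submodule A V) :
    hs T (N ⊔ M) + hs T (N ⊓ M) = hs T N + hs T M := by
  obtain ⟨C, hC⟩ := exists_isCompl (N ⊓ M)
  have h1 : M = (N ⊓ M) ⊔ (M ⊓ C) := by
    apply le_antisymm
    · intro x hx
      have hx1 : x ∈ (N ⊓ M) ⊔ C := by rw [hC.sup_eq_top]; trivial
      rw [Submodule.mem_sup] at hx1 ⊢
      obtain ⟨y, hy, z, hz, rfl⟩ := hx1
      refine ⟨y, hy, z, ⟨?_, hz⟩, rfl⟩
      have : z = (y + z) - y := by abel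
      rw [this]
      exact M.sub_mem hx hy.2
    · exact sup_le inf_le_right inf_le_left
  have h2 : (N ⊓ M) ⊓ (M ⊓ C) = ⊥ := by
    rw [eq_bot_iff, ← hC.inf_eq_bot]
    exact inf_le_inf le_rfl inf_le_right
  have h3 : N ⊔ M = N ⊔ (M ⊓ C) := by
    apply le_antisymm
    · refine sup_le le_sup_left ?_
      conv_lhs => rw [h1]
      exact sup_le (inf_le_left.trans le_sup_left) le_sup_right
    · exact sup_le le_sup_left (inf_le_left.trans le_sup_right)
  have h4 : N ⊓ (M ⊓ C) = ⊥ := by
    rw [← inf_assoc]
    exact hC.inf_eq_bot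
  have h5 : hs T M = hs T (N ⊓ M) + hs T (M ⊓ C) := by
    conv_lhs => rw [h1]
    exact hs_sup T h2
  rw [h3, hs_sup T h4, h5]
  ring

/-- Comparison of the dimensions of two quotients `N / P` and `M / Q` by a map inducing an
isomorphism. -/
theorem hs_sub_of_compl [IsSemisimpleModule A V] {N M : Submodule A V} (h : IsCompl N M) :
    hs T N + hs T M = hm A T V := by
  rw [← hs_sup T h.inf_eq_bot, h.sup_eq_top, hs_top]

end

/-! ### Modules with the same dimensions of spaces of homomorphisms -/

theorem iso_of_hm {A : Type} [Ring A] [Algebra ℚ A] : ∀ (r : ℕ) (M N : Type)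
    [AddCommGroup M] [Module ℚ M] [Module A M] [IsScalarTower ℚ A M] [FiniteDimensional ℚ M]
    [IsSemisimpleModule A M]
    [AddCommGroup N] [Module ℚ N] [Module A N] [IsScalarTower ℚ A N] [FiniteDimensional ℚ N]
    [IsSemisimpleModule A N],
    finrank ℚ M = r →
    (∀ (T : Type) [AddCommGroup T] [Module ℚ T] [Module A T] [IsScalarTower ℚ A T]
      [FiniteDimensional ℚ T], hm A T M = hm A T N) → Nonempty (M ≃ₗ[A] N) := by
  intro r
  induction r using Nat.strong_induction_on with
  | _ r ih =>
    intro M N _ _ _ _ _ _ _ _ _ _ _ _ hr h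
    by_cases hM : Nontrivial M
    · obtain ⟨S, hS⟩ := IsSemisimpleModule.exists_simple_submodule A M
      have hS1 : Nontrivial S := IsSimpleModule.nontrivial A S
      -- a nonzero map from `S` to `N`
      have hpos : 0 < hm A S M := by
        unfold hm
        have : Nontrivial (S →ₗ[A] M) := by
          refine ⟨⟨S.subtype, 0, ?_⟩⟩
          intro h0
          obtain ⟨x, hx⟩ := exists_ne (0 : S)
          apply hx
          have := LinearMap.congr_fun h0 x
          exact Subtype.ext this
        exact Module.finrank_pos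
      rw [h S] at hpos
      have hN : ∃ f : S →ₗ[A] N, f ≠ 0 := by
        by_contra hcon
        push Not at hcon
        have : Subsingleton (S →ₗ[A] N) := ⟨fun f g => by rw [hcon f, hcon g]⟩
        unfold hm at hpos
        rw [finrank_zero_of_subsingleton] at hpos
        exact lt_irrefl _ hpos
      obtain ⟨f, hf⟩ := hN
      have hinj : Function.Injective f := (LinearMap.injective_or_eq_zero f).resolve_right hf
      obtain ⟨M₁, hM₁⟩ := exists_isCompl S
      obtain ⟨N₁, hN₁⟩ := exists_isCompl (LinearMap.range f)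
      have eS : S ≃ₗ[A] LinearMap.range f := LinearEquiv.ofInjective f hinj
      have eM : (S × M₁) ≃ₗ[A] M := Submodule.prodEquivOfIsCompl S M₁ hM₁
      have eN : (LinearMap.range f × N₁) ≃ₗ[A] N := Submodule.prodEquivOfIsCompl _ N₁ hN₁
      have hlt : finrank ℚ M₁ < r := by
        have h1 : finrank ℚ (S × M₁) = finrank ℚ M := by
          let e' : (S × M₁) ≃ₗ[ℚ] M := eM.restrictScalars ℚ
          exact e'.finrank_eq
        rw [finrank_prod, hr] at h1
        have h2 : 0 < finrank ℚ S := Module.finrank_pos
        omega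
      have hT : ∀ (T : Type) [AddCommGroup T] [Module ℚ T] [Module A T] [IsScalarTower ℚ A T]
          [FiniteDimensional ℚ T], hm A T M₁ = hm A T N₁ := by
        intro T _ _ _ _ _
        have h1 := h T
        rw [← hm_congr T eM, ← hm_congr T eN, hm_prod, hm_prod, hm_congr T eS] at h1
        omega
      obtain ⟨e⟩ := ih (finrank ℚ M₁) hlt M₁ N₁ rfl hT
      exact ⟨eM.symm.trans ((eS.prodCongr e).trans eN)⟩
    · rw [not_nontrivial_iff_subsingleton] at hM
      have hN : Subsingleton N := by
        by_contra hcon
        rw [not_subsingleton_iff_nontrivial] at hcon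
        have h1 := h N
        have h2 : hm A N M = 0 := by
          unfold hm
          have : Subsingleton (N →ₗ[A] M) := ⟨fun f g => by ext x; exact Subsingleton.elim _ _⟩
          exact finrank_zero_of_subsingleton
        have h3 : 0 < hm A N N := by
          unfold hm
          have : Nontrivial (N →ₗ[A] N) := by
            refine ⟨⟨LinearMap.id, 0, ?_⟩⟩
            intro h0
            obtain ⟨x, hx⟩ := exists_ne (0 : N)
            exact hx (LinearMap.congr_fun h0 x)
          exact Module.finrank_pos
        omega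
      exact ⟨{ (0 : M →ₗ[A] N) with
        invFun := 0
        left_inv := fun x => Subsingleton.elim _ _
        right_inv := fun x => Subsingleton.elim _ _ }⟩

end Pool.Agent.X268.HS
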