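import Pool.Agent.X268.HS.Prim

set_option linter.unusedSectionVars false

open Module

namespace Pool.Agent.X268.HS

variable {A : Type} [Ring A] [Algebra ℚ A] [StarRing A] {m : ℕ} {X Y : LefMod A m}

theorem JointPos.symm (h : JointPos X Y) : JointPos Y X := by
  intro Z _ _ u v huv z
  have := h Z v u fun x y => by rw [add_comm]; exact huv x y
  exact ⟨(this z).2, (this z).1⟩

/-- The inverse of an isometry. -/
def Isom.symm (Φ : Isom X Y) : Isom Y X where
  φ := Φ.φ.symm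
  isom' x y := by
    show X.B (Φ.φ.symm x) (Φ.φ.symm y) = Y.B x y
    rw [← Φ.isom, LinearEquiv.apply_symm_apply, LinearEquiv.apply_symm_apply]

/-! ### The isotropic and semidefinite subspaces -/

/-- The pieces of the semidefinite subspace. -/
noncomputable def DD (X : LefMod A m) (c : ℤ) (M : Submodule A X.V) (j : ℤ) : Submodule A X.V :=
  if c < j then X.deg j else if j = c then M else ⊥

/-- The semidefinite subspace `⨁_{j > c} deg j ⊕ M`. -/
noncomputable def WW (X : LefMod A m) (c : ℤ) (M : Submodule A X.V) : Submodule A X.V :=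
  ⨆ j, DD X c M j

theorem DD_le {c : ℤ} {M : Submodule A X.V} (hM : M ≤ X.deg c) (j : ℤ) :
    DD X c M j ≤ X.deg j := by
  unfold DD
  split_ifs with h1 h2
  · exact le_rfl
  · subst h2; exact hM
  · exact bot_le

theorem WW_mono {c : ℤ} {M M' : Submodule A X.V} (h : M ≤ M') : WW X c M ≤ WW X c M' := by
  refine iSup_mono fun j => ?_
  unfold DD
  split_ifs
  · exact le_rfl
  · exact h
  · exact le_rfl

theorem WW_eq (c : ℤ) (M : Submodule A X.V) : WW X c M = WW X c ⊥ ⊔ M := by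
  apply le_antisymm
  · refine iSup_le fun j => ?_
    by_cases h1 : c < j
    · have : DD X c M j = DD X c ⊥ j := by unfold DD; rw [if_pos h1, if_pos h1]
      rw [this]
      exact (le_iSup (DD X c ⊥) j).trans le_sup_left
    · by_cases h2 : j = c
      · have : DD X c M j = M := by unfold DD; rw [if_neg h1, if_pos h2]
        rw [this]
        exact le_sup_right
      · have : DD X c M j = ⊥ := by unfold DD; rw [if_neg h1, if_neg h2]
        rw [this]
        exact bot_le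
  · refine sup_le (WW_mono bot_le) ?_
    have : DD X c M c = M := by unfold DD; rw [if_neg (lt_irrefl c), if_pos rfl]
    rw [← this]
    exact le_iSup (DD X c (DD X c M c)) c |>.trans' (by
      unfold DD; rw [if_neg (lt_irrefl c), if_pos rfl, if_neg (lt_irrefl c), if_pos rfl])

/-- `B` vanishes between `⨁_{j > c} deg j` and `⨁_{j ≥ c} deg j`. -/
theorem B_WW {c : ℤ} (hc : 2 * c = m) {M : Submodule A X.V} (hM : M ≤ X.deg c) {x y : X.V}
    (hx : x ∈ WW X c ⊥) (hy : y ∈ WW X c M) : X.B x y = 0 ∧ X.B y x = 0 := by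
  unfold WW at hx hy
  refine Submodule.iSup_induction _ (motive := fun x => X.B x y = 0 ∧ X.B y x = 0) hx ?_ ?_ ?_
  · intro i x hx
    unfold DD at hx
    split_ifs at hx with h1 h2
    · refine Submodule.iSup_induction _ (motive := fun y => X.B x y = 0 ∧ X.B y x = 0) hy ?_ ?_ ?_
      · intro j y hy
        have hy' := DD_le hM j hy
        unfold DD at hy
        split_ifs at hy with h3 h4
        · exact ⟨X.B_tri i j (by omega) x hx y hy', X.B_tri j i (by omega) y hy' x hx⟩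
        · exact ⟨X.B_tri i j (by omega) x hx y hy', X.B_tri j i (by omega) y hy' x hx⟩
        · rw [Submodule.mem_bot] at hy
          rw [hy]; simp
      · simp
      · intro a b ha hb
        simp only [map_add, LinearMap.add_apply]
        rw [ha.1, ha.2, hb.1, hb.2]
        simp
    · rw [Submodule.mem_bot] at hx
      rw [hx]; simp
    · rw [Submodule.mem_bot] at hx
      rw [hx]; simp
  · simp
  · intro a b ha hb
    simp only [map_add, LinearMap.add_apply]
    rw [ha.1, ha.2, hb.1, hb.2]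
    simp

/-- The key step. -/
theorem inf_le (hXY : JointPos X Y) (Φ : Isom X Y) {c : ℤ} (hc : 2 * c = m)
    {M : Submodule A X.V} {N : Submodule A Y.V} (hM : M ≤ X.deg c) (hN : N ≤ Y.deg c)
    (hMB : ∀ x ∈ M, ∀ y ∈ M, X.B x y = X.σ x y) (hNB : ∀ x ∈ N, ∀ y ∈ N, Y.B x y = -Y.σ x y) :
    (WW X c M).map (Φ.φ : X.V →ₗ[A] Y.V) ⊓ WW Y c N ≤
      (WW X c ⊥).map (Φ.φ : X.V →ₗ[A] Y.V) ⊓ WW Y c ⊥ := by
  let Z : Submodule A (X.V × Y.V) :=
    { carrier := {p | p.1 ∈ M ∧ p.2 ∈ N ∧ ∃ f ∈ WW X c ⊥, ∃ g ∈ WW Y c ⊥,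
        Φ.φ (f + p.1) = g + p.2}
      add_mem' := by
        rintro ⟨a, b⟩ ⟨a', b'⟩ ⟨ha, hb, f, hf, g, hg, h⟩ ⟨ha', hb', f', hf', g', hg', h'⟩
        refine ⟨M.add_mem ha ha', N.add_mem hb hb', f + f', Submodule.add_mem _ hf hf', g + g',
          Submodule.add_mem _ hg hg', ?_⟩
        have e1 : f + f' + (a + a') = (f + a) + (f' + a') := by abel
        have e2 : g + g' + (b + b') = (g + b) + (g' + b') := by abel
        show Φ.φ (f + f' + (a + a')) = g + g' + (b + b')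
        rw [e1, e2, map_add, h, h']
      zero_mem' := ⟨M.zero_mem, N.zero_mem, 0, Submodule.zero_mem _, 0, Submodule.zero_mem _, by
        simp⟩
      smul_mem' := by
        rintro s ⟨a, b⟩ ⟨ha, hb, f, hf, g, hg, h⟩
        refine ⟨M.smul_mem s ha, N.smul_mem s hb, s • f, Submodule.smul_mem _ s hf, s • g,
          Submodule.smul_mem _ s hg, ?_⟩
        show Φ.φ (s • f + s • a) = s • g + s • b
        rw [← smul_add, ← smul_add, map_smul, h] }
  have hM' : ∀ x ∈ M, x ∈ WW X c M := fun x hx => by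
    rw [WW_eq]; exact Submodule.mem_sup_right hx
  have hN' : ∀ x ∈ N, x ∈ WW Y c N := fun x hx => by
    rw [WW_eq]; exact Submodule.mem_sup_right hx
  have hF : ∀ x ∈ WW X c ⊥, x ∈ WW X c M := fun x hx => WW_mono bot_le hx
  have hG : ∀ x ∈ WW Y c ⊥, x ∈ WW Y c N := fun x hx => WW_mono bot_le hx
  have key := hXY.use Z ((LinearMap.fst A X.V Y.V) ∘ₗ Z.subtype)
    ((LinearMap.snd A X.V Y.V) ∘ₗ Z.subtype) (by
      rintro ⟨⟨a, b⟩, ha, hb, f, hf, g, hg, h⟩ ⟨⟨a', b'⟩, ha', hb', f', hf', g', hg', h'⟩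
      show X.σ a a' + Y.σ b b' = 0
      simp only at ha hb ha' hb' h h'
      have h1 := Φ.isom (f + a) (f' + a')
      rw [h, h'] at h1
      simp only [map_add, LinearMap.add_apply] at h1
      rw [(B_WW hc hM hf (hF _ hf')).1, (B_WW hc hM hf (hM' _ ha')).1,
        (B_WW hc hM hf' (hM' _ ha)).2, (B_WW hc hN hg (hG _ hg')).1,
        (B_WW hc hN hg (hN' _ hb')).1, (B_WW hc hN hg' (hN' _ hb)).2, hMB a ha a' ha',
        hNB b hb b' hb'] at h1
      linarith)
  rintro _ ⟨⟨z, hz, rfl⟩, hz2⟩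
  have hz' : z ∈ WW X c M := hz
  have hz2' : Φ.φ z ∈ WW Y c N := hz2
  rw [WW_eq, Submodule.mem_sup] at hz' hz2'
  obtain ⟨f, hf, a, ha, rfl⟩ := hz'
  obtain ⟨g, hg, b, hb, hgb⟩ := hz2'
  let p : Z := ⟨(a, b), ha, hb, f, hf, g, hg, hgb.symm⟩
  have ha0 : a = 0 := LinearMap.congr_fun key.1 p
  have hb0 : b = 0 := LinearMap.congr_fun key.2 p
  subst ha0 hb0
  refine ⟨⟨f + 0, by simpa using hf, rfl⟩, ?_⟩
  show Φ.φ (f + 0) ∈ WW Y c ⊥
  rw [← hgb]
  simpa using hg

section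

variable (T : Type) [AddCommGroup T] [Module ℚ T] [Module A T] [IsScalarTower ℚ A T]
  [FiniteDimensional ℚ T]

theorem inertia_hs (hXY : JointPos X Y) (Φ : Isom X Y) {c : ℤ} (hc : 2 * c = m)
    {M : Submodule A X.V} {N : Submodule A Y.V} (hM : M ≤ X.deg c) (hN : N ≤ Y.deg c)
    (hMB : ∀ x ∈ M, ∀ y ∈ M, X.B x y = X.σ x y) (hNB : ∀ x ∈ N, ∀ y ∈ N, Y.B x y = -Y.σ x y) :
    hs T (WW X c M) + hs T (WW Y c N) ≤ hm A T Y.V := by
  have h1 := hs_modular T ((WW X c M).map (Φ.φ : X.V →ₗ[A] Y.V)) (WW Y c N)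
  have h2 : (WW X c M).map (Φ.φ : X.V →ₗ[A] Y.V) ⊓ WW Y c N =
      (WW X c ⊥).map (Φ.φ : X.V →ₗ[A] Y.V) ⊓ WW Y c ⊥ :=
    le_antisymm (inf_le hXY Φ hc hM hN hMB hNB)
      (inf_le_inf (Submodule.map_mono (WW_mono bot_le)) (WW_mono bot_le))
  rw [h2] at h1
  set K := (WW X c ⊥).map (Φ.φ : X.V →ₗ[A] Y.V) ⊓ WW Y c ⊥ with hK
  have h3 : (WW X c M).map (Φ.φ : X.V →ₗ[A] Y.V) ⊔ WW Y c N ≤ perp Y K := by
    refine sup_le ?_ ?_
    · rintro _ ⟨y, hy, rfl⟩
      rw [mem_perp]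
      rintro _ ⟨⟨x, hx, rfl⟩, _⟩
      show Y.B (Φ.φ x) (Φ.φ y) = 0
      rw [Φ.isom]
      exact (B_WW hc hM hx hy).1
    · intro y hy
      rw [mem_perp]
      rintro x ⟨_, hx⟩
      exact (B_WW hc hN hx hy).1
  have h4 := hs_perp T hXY.symm K
  have h5 := hs_mono T h3
  have h6 : hs T ((WW X c M).map (Φ.φ : X.V →ₗ[A] Y.V)) = hs T (WW X c M) :=
    hs_map T _ _ fun x _ hx => by
      apply Φ.φ.injective
      rw [map_zero]
      exact hx
  rw [h6] at h1
  omega

/-! ### Sums -/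

theorem sum_Icc_mid (g : ℤ → ℤ) (a : ℤ) (c : ℕ) : ∑ j ∈ Finset.Icc (a - c) (a + c), g j =
    g a + ∑ i ∈ Finset.range c, (g (a + ((i : ℤ) + 1)) + g (a - ((i : ℤ) + 1))) := by
  induction c with
  | zero => simp
  | succ N ih =>
    have e : Finset.Icc (a - ((N + 1 : ℕ) : ℤ)) (a + ((N + 1 : ℕ) : ℤ)) =
        insert (a + ((N : ℤ) + 1)) (insert (a - ((N : ℤ) + 1))
          (Finset.Icc (a - (N : ℤ)) (a + N))) := by
      ext k
      simp only [Finset.mem_Icc, Finset.mem_insert]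
      push_cast
      omega
    rw [e, Finset.sum_insert, Finset.sum_insert, ih, Finset.sum_range_succ]
    · ring
    · rw [Finset.mem_Icc]; omega
    · rw [Finset.mem_insert, Finset.mem_Icc]; omega

/-- The multiplicities in the total space. -/
theorem total (X : LefMod A m) : (hm A T X.V : ℤ) = ∑ i ∈ Finset.Icc (0 : ℤ) m, vv T X i := by
  rw [← hs_top, ← X.sup, hs_fam T X X.deg fun _ => le_rfl]
  rfl

theorem vv_neg (X : LefMod A m) {i : ℤ} (hi : i < 0) : vv T X i = 0 := by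
  unfold vv
  rw [X.van i (Or.inl hi), hs_bot]
  rfl

/-- The sum `vv (c - 1) + vv (c - 2) + …`. -/
noncomputable def ff (X : LefMod A m) (c : ℕ) : ℤ :=
  ∑ j ∈ Finset.range c, vv T X ((c : ℤ) - 1 - j)

theorem vv_mid (X : LefMod A m) {c : ℕ} (hc : m = 2 * c) (i : ℕ) :
    vv T X ((c : ℤ) + ((i : ℤ) + 1)) = vv T X ((c : ℤ) - 1 - i) := by
  have h := vv_symm T X (i := (c : ℤ) - 1 - i) (k := 2 * (i + 1)) (by rw [hc]; push_cast; ring)
  rw [h]
  congr 1
  push_cast
  ring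

theorem total_eq (X : LefMod A m) {c : ℕ} (hc : m = 2 * c) :
    (hm A T X.V : ℤ) = vv T X c + 2 * ff T X c := by
  have e : Finset.Icc (0 : ℤ) m = Finset.Icc ((c : ℤ) - c) ((c : ℤ) + c) := by
    rw [hc]; push_cast; congr 1 <;> ring
  rw [total, e, sum_Icc_mid]
  unfold ff
  rw [Finset.mul_sum]
  congr 1
  refine Finset.sum_congr rfl fun i _ => ?_
  rw [vv_mid T X hc]
  have : (c : ℤ) - ((i : ℤ) + 1) = (c : ℤ) - 1 - i := by ring
  rw [this]
  ring

theorem WW_hs (X : LefMod A m) {c : ℕ} (hc : m = 2 * c) {M : Submodule A X.V}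
    (hM : M ≤ X.deg c) : (hs T (WW X c M) : ℤ) = ff T X c + hs T M := by
  have e : Finset.Icc (0 : ℤ) m = Finset.Icc ((c : ℤ) - c) ((c : ℤ) + c) := by
    rw [hc]; push_cast; congr 1 <;> ring
  unfold WW
  rw [hs_fam T X (DD X c M) (DD_le hM), e,
    sum_Icc_mid (fun j => (hs T (DD X c M j) : ℤ)), add_comm]
  unfold ff
  congr 1
  · refine Finset.sum_congr rfl fun i _ => ?_
    have h1 : DD X c M ((c : ℤ) + ((i : ℤ) + 1)) = X.deg ((c : ℤ) + ((i : ℤ) + 1)) := by
      unfold DD; rw [if_pos (by omega)]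
    have h2 : DD X c M ((c : ℤ) - ((i : ℤ) + 1)) = ⊥ := by
      unfold DD; rw [if_neg (by omega), if_neg (by omega)]
    rw [h1, h2, hs_bot, ← vv_mid T X hc]
    simp [vv]
  · have : DD X c M c = M := by unfold DD; rw [if_neg (lt_irrefl _), if_pos rfl]
    rw [this]

/-- The alternating sum `vv (c - 1) - vv (c - 2) + …`. -/
noncomputable def aa (X : LefMod A m) (c : ℕ) : ℤ :=
  ∑ j ∈ Finset.range c, (-1) ^ j * vv T X ((c : ℤ) - 1 - j)

/-- The inertia inequality. -/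
theorem inertia_le (hXY : JointPos X Y) (Φ : Isom X Y) {c : ℕ} (hc : m = 2 * c) :
    (ff T X c + (vv T X c - aa T X c)) + (ff T Y c + aa T Y c) ≤ vv T Y c + 2 * ff T Y c := by
  obtain ⟨M₁, M₂, hM₁, hM₂, hinf, hsup, h₁, -, hT⟩ := definite X (c + 1) (c : ℤ) 0
    (by rw [hc]; push_cast; ring) (by push_cast; omega)
  obtain ⟨N₁, N₂, hN₁, hN₂, -, -, -, h₂', hT'⟩ := definite Y (c + 1) (c : ℤ) 0
    (by rw [hc]; push_cast; ring) (by push_cast; omega)
  have h := inertia_hs T hXY Φ (c := (c : ℤ)) (by rw [hc]; push_cast; ring) hM₁ hN₂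
    (fun x hx y hy => by simpa using h₁ x hx y hy) (fun x hx y hy => by simpa using h₂' x hx y hy)
  have e1 := WW_hs T X hc hM₁
  have e2 := WW_hs T Y hc hN₂
  have e3 := total_eq T Y hc
  have e4 : (hs T M₁ : ℤ) + hs T M₂ = vv T X c := by
    unfold vv
    rw [← hsup, hs_sup T hinf]
    push_cast
    ring
  have e5 : (hs T M₂ : ℤ) = aa T X c := by
    rw [hT T, Finset.sum_range_succ, vv_neg T X (by omega), mul_zero, add_zero]
    rfl
  have e6 : (hs T N₂ : ℤ) = aa T Y c := by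
    rw [hT' T, Finset.sum_range_succ, vv_neg T Y (by omega), mul_zero, add_zero]
    rfl
  have h' : (hs T (WW X c M₁) : ℤ) + hs T (WW Y c N₂) ≤ hm A T Y.V := by exact_mod_cast h
  rw [e1, e2, e3, e6] at h'
  linarith

/-- **Inertia**: `2 (vv (c - 1) + vv (c - 3) + …)` is the same for `X` and `Y`. -/
theorem inertia (hXY : JointPos X Y) (Φ : Isom X Y) {c : ℕ} (hc : m = 2 * c) :
    ff T X c + aa T X c = ff T Y c + aa T Y c := by
  have h1 := inertia_le T hXY Φ hc
  have h2 := inertia_le T hXY.symm Φ.symm hc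
  have h3 : (hm A T X.V : ℤ) = hm A T Y.V := by rw [hm_congr T Φ.φ]
  rw [total_eq T X hc, total_eq T Y hc] at h3
  linarith

end

end Pool.Agent.X268.HS
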