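import Pool.Agent.X268.HS.Cor

set_option linter.unusedSectionVars false

open Module CategoryTheory

namespace Pool.Agent.X268.HS

universe u v

variable {A : Type} [Ring A] [Algebra ℚ A] [StarRing A] {m m' : ℕ}

/-- The space of the homomorphisms from `T` to `V` with values in `deg i`. -/
def HomIn (T : Type) [AddCommGroup T] [Module A T] (X : LData A) (i : ℤ) :
    Submodule ℚ (T →ₗ[A] X.V) where
  carrier := {f | ∀ t, X.InDeg i (f t)}
  add_mem' := fun hf hg t => (X.deg i).add_mem (hf t) (hg t)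
  zero_mem' := fun _ => (X.deg i).zero_mem
  smul_mem' := fun r f hf t => by
    show r • f t ∈ X.deg i
    rw [← algebraMap_smul A r (f t)]
    exact (X.deg i).smul_mem _ (hf t)

/-- The multiplicity `dim Hom_A(T, deg i)`. -/
noncomputable def mult (T : Type) [AddCommGroup T] [Module A T] (X : LData A) (i : ℤ) : ℤ :=
  finrank ℚ (HomIn T X i)

theorem mult_eq (T : Type) [AddCommGroup T] [Module ℚ T] [Module A T] [IsScalarTower ℚ A T]
    [FiniteDimensional ℚ T] (X : LefMod A m) (i : ℤ) : mult T X.toLData i = vv T X i := by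
  unfold mult vv hs hm
  norm_cast
  let e : (T →ₗ[A] X.deg i) ≃ₗ[ℚ] HomIn T X.toLData i :=
    { toFun := fun f => ⟨(X.deg i).subtype ∘ₗ f, fun t => (f t).2⟩
      map_add' := fun f g => rfl
      map_smul' := fun r f => rfl
      invFun := fun f => LinearMap.codRestrict (X.deg i) f.1 f.2
      left_inv := fun f => rfl
      right_inv := fun f => rfl }
  exact e.finrank_eq.symm

/-- The graded modules are isomorphic in the degrees from `0` to `d`. -/
def LowIso (X Y : LefMod A m) (d : ℤ) : Prop :=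
  ∀ i : ℤ, 0 ≤ i → i ≤ d → Nonempty (X.deg i ≃ₗ[A] Y.deg i)

/-- The graded modules are isomorphic. -/
def GrIso (X Y : LefMod A m) : Prop :=
  ∃ Ψ : X.Iso Y.toLData, ∀ (i : ℤ) (x : X.V), X.InDeg i x ↔ Y.InDeg i (LData.map Ψ x)

/-- The sum `2 (mult (c - 1) + mult (c - 3) + …)`. -/
noncomputable def oddSum (T : Type) [AddCommGroup T] [Module A T] (X : LData A) (c : ℕ) : ℤ :=
  ∑ j ∈ Finset.range c, (1 + (-1) ^ j) * mult T X ((c : ℤ) - 1 - j)

/-- The sum `mult c + 2 (mult (c - 2) + mult (c - 4) + …)`. -/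
noncomputable def evenSum (T : Type) [AddCommGroup T] [Module A T] (X : LData A) (c : ℕ) : ℤ :=
  mult T X c + ∑ j ∈ Finset.range c, (1 - (-1) ^ j) * mult T X ((c : ℤ) - 1 - j)

/-- A homomorphism which respects the degrees. -/
def GradedMap {X Y : LData A} (g : Y.From X.V) : Prop :=
  ∀ (i : ℤ) (x : X.V), X.InDeg i x → Y.InDeg i (LData.val g x)

/-- Two functors to modules over `A`: the realisations by the even and the odd cohomology. -/
structure RealData (C : Type u) [Category.{v} C] [Preadditive C] (A : Type) [Ring A] where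
  R : C ⥤ ModuleCat.{0} A
  R' : C ⥤ ModuleCat.{0} A
  [add : R.Additive]
  [add' : R'.Additive]

/-- The realisations of `M` are `X` and `X'`. -/
structure RealIso {C : Type u} [Category.{v} C] [Preadditive C] (𝓡 : RealData C A) (M : C)
    (X X' : LData A) where
  e : 𝓡.R.obj M ≃ₗ[A] X.V
  e' : 𝓡.R'.obj M ≃ₗ[A] X'.V

/-- The action of a morphism on the first realisation. -/
def RealData.ap {C : Type u} [Category.{v} C] [Preadditive C] (𝓡 : RealData C A) {M N : C}
    (f : M ⟶ N) (x : 𝓡.R.obj M) : 𝓡.R.obj N := (𝓡.R.map f).hom x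

/-- The action of a morphism on the second realisation. -/
def RealData.ap' {C : Type u} [Category.{v} C] [Preadditive C] (𝓡 : RealData C A) {M N : C}
    (f : M ⟶ N) (x : 𝓡.R'.obj M) : 𝓡.R'.obj N := (𝓡.R'.map f).hom x

/-- The isomorphism of the first realisation with `X`. -/
def RealIso.ev {C : Type u} [Category.{v} C] [Preadditive C] {𝓡 : RealData C A} {M : C}
    {X X' : LData A} (a : RealIso 𝓡 M X X') (x : 𝓡.R.obj M) : X.V := a.e x

/-- The isomorphism of the second realisation with `X'`. -/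
def RealIso.ev' {C : Type u} [Category.{v} C] [Preadditive C] {𝓡 : RealData C A} {M : C}
    {X X' : LData A} (a : RealIso 𝓡 M X X') (x : 𝓡.R'.obj M) : X'.V := a.e' x

/-- Any two homomorphisms of the realisations of `M` and `N` which respect the degrees come from a
morphism. -/
def Lifts {C : Type u} [Category.{v} C] [Preadditive C] {𝓡 : RealData C A} {M N : C}
    {X X' Y Y' : LData A} (a : RealIso 𝓡 M X X') (b : RealIso 𝓡 N Y Y') : Prop :=
  ∀ (g : Y.From X.V) (g' : Y'.From X'.V), GradedMap g → GradedMap g' →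
    ∃ f : M ⟶ N, (∀ x, b.ev (𝓡.ap f x) = LData.val g (a.ev x)) ∧
      ∀ x, b.ev' (𝓡.ap' f x) = LData.val g' (a.ev' x)

/-- Every endomorphism of `M` with zero realisations is nilpotent. -/
def NilKernel {C : Type u} [Category.{v} C] [Preadditive C] (𝓡 : RealData C A) (M : C) :
    Prop :=
  ∀ f : End M, 𝓡.R.map (show M ⟶ M from f) = 0 → 𝓡.R'.map (show M ⟶ M from f) = 0 →
    ∃ k : ℕ, f ^ k = 0

/-- Two objects `M`, `N` of a category with realisations by modules over `A`, such that the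
homomorphisms of the realisations which respect the degrees come from morphisms, and every
endomorphism of `M` or `N` with zero realisations is nilpotent. -/
structure Realised {C : Type u} [Category.{v} C] [Preadditive C] (M N : C) (X Y : LData A)
    (X' Y' : LData A) where
  𝓡 : RealData C A
  a : RealIso 𝓡 M X X'
  b : RealIso 𝓡 N Y Y'
  full : Lifts a b
  full' : Lifts b a
  nil : NilKernel 𝓡 M
  nil' : NilKernel 𝓡 N

/-- A morphism with an inverse modulo nilpotent endomorphisms is an isomorphism. -/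
theorem iso_of_nil {C : Type u} [Category.{v} C] [Preadditive C] {M N : C} (f : M ⟶ N)
    (g : N ⟶ M) (h1 : ∃ k : ℕ, (show End M from f ≫ g - 𝟙 M) ^ k = 0)
    (h2 : ∃ k : ℕ, (show End N from g ≫ f - 𝟙 N) ^ k = 0) : Nonempty (M ≅ N) := by
  have u1 : IsUnit (show End M from f ≫ g) := by
    have hn : IsNilpotent (show End M from f ≫ g - 𝟙 M) := h1
    have := hn.isUnit_one_add
    have e : (1 : End M) + (show End M from f ≫ g - 𝟙 M) = (show End M from f ≫ g) := by
      show 𝟙 M + (f ≫ g - 𝟙 M) = f ≫ g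
      abel
    rwa [e] at this
  have u2 : IsUnit (show End N from g ≫ f) := by
    have hn : IsNilpotent (show End N from g ≫ f - 𝟙 N) := h2
    have := hn.isUnit_one_add
    have e : (1 : End N) + (show End N from g ≫ f - 𝟙 N) = (show End N from g ≫ f) := by
      show 𝟙 N + (g ≫ f - 𝟙 N) = g ≫ f
      abel
    rwa [e] at this
  obtain ⟨a, ha⟩ := u1
  obtain ⟨b, hb⟩ := u2
  -- `f ≫ g ≫ a⁻¹ = 1` and `b⁻¹ ≫ g ≫ f = 1`
  have e1 : f ≫ (g ≫ (show M ⟶ M from (↑a⁻¹ : End M))) = 𝟙 M := by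
    have h : (↑a⁻¹ : End M) * (↑a : End M) = 1 := a.inv_mul
    rw [ha] at h
    rw [← Category.assoc]
    exact h
  have e2 : ((show N ⟶ N from (↑b⁻¹ : End N)) ≫ g) ≫ f = 𝟙 N := by
    have h : (↑b : End N) * (↑b⁻¹ : End N) = 1 := b.mul_inv
    rw [hb] at h
    rw [Category.assoc]
    exact h
  have e3 : g ≫ (show M ⟶ M from (↑a⁻¹ : End M)) = (show N ⟶ N from (↑b⁻¹ : End N)) ≫ g := by
    calc g ≫ (show M ⟶ M from (↑a⁻¹ : End M))
        = 𝟙 N ≫ (g ≫ (show M ⟶ M from (↑a⁻¹ : End M))) := (Category.id_comp _).symm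
      _ = (((show N ⟶ N from (↑b⁻¹ : End N)) ≫ g) ≫ f) ≫
            (g ≫ (show M ⟶ M from (↑a⁻¹ : End M))) := by rw [e2]
      _ = ((show N ⟶ N from (↑b⁻¹ : End N)) ≫ g) ≫
            (f ≫ (g ≫ (show M ⟶ M from (↑a⁻¹ : End M)))) := by rw [Category.assoc]
      _ = _ := by rw [e1, Category.comp_id]
  exact ⟨⟨f, g ≫ (show M ⟶ M from (↑a⁻¹ : End M)), e1, by rw [e3]; exact e2⟩⟩

/-- Isomorphic realisations give isomorphic objects. -/
theorem iso_of_graded {C : Type u} [Category.{v} C] [Preadditive C] {M N : C} {X Y : LefMod A m}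
    {X' Y' : LefMod A m'} (𝓡 : Realised M N X.toLData Y.toLData X'.toLData Y'.toLData)
    (h : GrIso X Y) (h' : GrIso X' Y') : Nonempty (M ≅ N) := by
  obtain ⟨Ψ, hΨ⟩ := h
  obtain ⟨Ψ', hΨ'⟩ := h'
  obtain ⟨𝓢, a, b, full, full', nil, nil'⟩ := 𝓡
  have := 𝓢.add
  have := 𝓢.add'
  obtain ⟨f, hf, hf'⟩ := full Ψ.toLinearMap Ψ'.toLinearMap (fun i x hx => (hΨ i x).mp hx)
    (fun i x hx => (hΨ' i x).mp hx)
  obtain ⟨g, hg, hg'⟩ := full' Ψ.symm.toLinearMap Ψ'.symm.toLinearMap
    (fun i x hx => by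
      refine (hΨ i _).mpr ?_
      have : LData.map Ψ (LData.val Ψ.symm.toLinearMap x) = x := Ψ.apply_symm_apply x
      rw [this]
      exact hx)
    (fun i x hx => by
      refine (hΨ' i _).mpr ?_
      have : LData.map Ψ' (LData.val Ψ'.symm.toLinearMap x) = x := Ψ'.apply_symm_apply x
      rw [this]
      exact hx)
  replace hf : ∀ x, b.e ((𝓢.R.map f).hom x) = Ψ (a.e x) := hf
  replace hf' : ∀ x, b.e' ((𝓢.R'.map f).hom x) = Ψ' (a.e' x) := hf'
  replace hg : ∀ x, a.e ((𝓢.R.map g).hom x) = Ψ.symm (b.e x) := hg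
  replace hg' : ∀ x, a.e' ((𝓢.R'.map g).hom x) = Ψ'.symm (b.e' x) := hg'
  refine iso_of_nil f g (nil _ ?_ ?_) (nil' _ ?_ ?_)
  · ext x
    apply a.e.injective
    show a.e ((𝓢.R.map (f ≫ g - 𝟙 M)).hom x) = a.e 0
    rw [Functor.map_sub, Functor.map_comp, CategoryTheory.Functor.map_id]
    show a.e ((𝓢.R.map g).hom ((𝓢.R.map f).hom x) - x) = a.e 0
    rw [map_sub, hg, hf, map_zero]
    rw [LinearEquiv.symm_apply_apply, sub_self]
  · ext x
    apply a.e'.injective
    show a.e' ((𝓢.R'.map (f ≫ g - 𝟙 M)).hom x) = a.e' 0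
    rw [Functor.map_sub, Functor.map_comp, CategoryTheory.Functor.map_id]
    show a.e' ((𝓢.R'.map g).hom ((𝓢.R'.map f).hom x) - x) = a.e' 0
    rw [map_sub, hg', hf', map_zero]
    rw [LinearEquiv.symm_apply_apply, sub_self]
  · ext x
    apply b.e.injective
    show b.e ((𝓢.R.map (g ≫ f - 𝟙 N)).hom x) = b.e 0
    rw [Functor.map_sub, Functor.map_comp, CategoryTheory.Functor.map_id]
    show b.e ((𝓢.R.map f).hom ((𝓢.R.map g).hom x) - x) = b.e 0
    rw [map_sub, hf, hg, map_zero]
    rw [LinearEquiv.apply_symm_apply, sub_self]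
  · ext x
    apply b.e'.injective
    show b.e' ((𝓢.R'.map (g ≫ f - 𝟙 N)).hom x) = b.e' 0
    rw [Functor.map_sub, Functor.map_comp, CategoryTheory.Functor.map_id]
    show b.e' ((𝓢.R'.map f).hom ((𝓢.R'.map g).hom x) - x) = b.e' 0
    rw [map_sub, hf', hg', map_zero]
    rw [LinearEquiv.apply_symm_apply, sub_self]

/-- The relations for the multiplicities. -/
theorem inertia_mult {c : ℕ} {X Y : LefMod A (2 * c)} (pos : JointPos X Y) (Φ : Isom X Y)
    (T : Type) [AddCommGroup T] [Module ℚ T] [Module A T] [IsScalarTower ℚ A T]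
    [FiniteDimensional ℚ T] :
    oddSum T X.toLData c = oddSum T Y.toLData c ∧ evenSum T X.toLData c = evenSum T Y.toLData c := by
  unfold oddSum evenSum
  simp only [mult_eq]
  exact ⟨rel_odd T pos Φ rfl, rel_even T pos Φ rfl⟩

end Pool.Agent.X268.HS
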