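import Pool.Agent.X268.HS.Defs

set_option linter.unusedSectionVars false

open Module

namespace Pool.Agent.X268.HS

variable {A : Type} [Ring A] [Algebra ℚ A] [StarRing A] {m : ℕ} {X Y : LefMod A m}

/-- The primitive part of `deg i`, with `2 i + k = m`. -/
def prim (X : LefMod A m) (i : ℤ) (k : ℕ) : Submodule A X.V :=
  X.deg i ⊓ LinearMap.ker (X.L ^ (k + 1) : X.V →ₗ[A] X.V)

theorem mem_prim {i : ℤ} {k : ℕ} {x : X.V} :
    x ∈ prim X i k ↔ x ∈ X.deg i ∧ (X.L ^ (k + 1)) x = 0 := by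
  unfold prim
  rw [Submodule.mem_inf, LinearMap.mem_ker]

theorem L_inj (X : LefMod A m) {i : ℤ} {k : ℕ} (h : 2 * i + k = m) {w : X.V}
    (hw : w ∈ X.deg (i - 1)) (h0 : (X.L ^ (k + 2)) w = 0) : w = 0 :=
  X.hl_inj (i - 1) (k + 2) (by push_cast; omega) w hw h0

theorem prim_inf (X : LefMod A m) {i : ℤ} {k : ℕ} (h : 2 * i + k = m) {w : X.V}
    (hw : w ∈ X.deg (i - 1)) (h1 : X.L w ∈ prim X i k) : w = 0 := by
  apply L_inj X h hw
  rw [mem_prim] at h1
  rw [pow_succ, Module.End.mul_apply]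
  exact h1.2

section

variable (T : Type) [AddCommGroup T] [Module ℚ T] [Module A T] [IsScalarTower ℚ A T]
  [FiniteDimensional ℚ T]

theorem hs_L (X : LefMod A m) {i : ℤ} {k : ℕ} (h : 2 * i + k = m) {N : Submodule A X.V}
    (hN : N ≤ X.deg (i - 1)) : hs T (N.map X.L) = hs T N := by
  refine hs_map T X.L N fun x hx h0 => ?_
  refine L_inj X h (hN hx) ?_
  rw [pow_succ, Module.End.mul_apply, h0, map_zero]

theorem prim_sup (X : LefMod A m) {i : ℤ} {k : ℕ} (h : 2 * i + k = m) :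
    prim X i k ⊔ (X.deg (i - 1)).map X.L = X.deg i := by
  apply le_antisymm
  · refine sup_le inf_le_left ?_
    rintro _ ⟨w, hw, rfl⟩
    have := X.L_mem (i - 1) w hw
    rwa [sub_add_cancel] at this
  · intro x hx
    have h1 := L_pow_mem X (k + 1) hx
    have e : i + ((k + 1 : ℕ) : ℤ) = (i - 1) + ((k + 2 : ℕ) : ℤ) := by push_cast; ring
    rw [e] at h1
    obtain ⟨w, hw, hwx⟩ := X.hl_surj (i - 1) (k + 2) (by push_cast; omega) _ h1
    have hLw : X.L w ∈ X.deg i := by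
      have := X.L_mem (i - 1) w hw
      rwa [sub_add_cancel] at this
    rw [Submodule.mem_sup]
    refine ⟨x - X.L w, ?_, X.L w, ⟨w, hw, rfl⟩, by abel⟩
    rw [mem_prim]
    refine ⟨(X.deg i).sub_mem hx hLw, ?_⟩
    rw [map_sub, ← hwx, ← Module.End.mul_apply, ← pow_succ, sub_self]

theorem hs_prim (X : LefMod A m) {i : ℤ} {k : ℕ} (h : 2 * i + k = m) :
    (hs T (prim X i k) : ℤ) = vv T X i - vv T X (i - 1) := by
  have h1 : hs T (prim X i k ⊔ (X.deg (i - 1)).map X.L) =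
      hs T (prim X i k) + hs T ((X.deg (i - 1)).map X.L) := by
    apply hs_sup
    rw [eq_bot_iff]
    rintro x ⟨hx, w, hw, rfl⟩
    rw [prim_inf X h hw hx, map_zero]
    exact Submodule.zero_mem _
  rw [prim_sup X h, hs_L T X h le_rfl] at h1
  unfold vv
  rw [h1]
  push_cast
  ring

end

/-- Moving powers of `L`. -/
theorem B_move (X : LefMod A m) {i : ℤ} {k : ℕ} (h : 2 * i + k = m) {x w : X.V}
    (hx : x ∈ X.deg i) (hw : w ∈ X.deg (i - 1)) (j : ℕ) (hj : j ≤ k + 1) :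
    X.B x ((X.L ^ (k + 1)) w) = (-1) ^ j * X.B ((X.L ^ j) x) ((X.L ^ (k + 1 - j)) w) := by
  induction j with
  | zero => simp
  | succ j ih =>
    rw [ih (by omega)]
    have e : k + 1 - j = (k - j) + 1 := by omega
    have e' : k + 1 - (j + 1) = k - j := by omega
    rw [e, e', pow_succ' X.L (k - j), Module.End.mul_apply, pow_succ' X.L j, Module.End.mul_apply,
      X.B_skew (i + j) (i - 1 + ((k - j : ℕ) : ℤ)) (by push_cast [Nat.cast_sub (show j ≤ k by omega)]; omega)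
        _ (L_pow_mem X j hx) _ (L_pow_mem X (k - j) hw)]
    ring

theorem B_prim_L (X : LefMod A m) {i : ℤ} {k : ℕ} (h : 2 * i + k = m) {x w : X.V}
    (hx : x ∈ prim X i k) (hw : w ∈ X.deg (i - 1)) : X.B x ((X.L ^ k) (X.L w)) = 0 := by
  rw [mem_prim] at hx
  have h1 := B_move X h hx.1 hw (k + 1) le_rfl
  rw [hx.2, map_zero, LinearMap.zero_apply, mul_zero] at h1
  rw [← Module.End.mul_apply, ← pow_succ]
  exact h1

theorem B_L_L (X : LefMod A m) {i : ℤ} {k : ℕ} (h : 2 * i + k = m) {u w : X.V}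
    (hu : u ∈ X.deg (i - 1)) (hw : w ∈ X.deg i) :
    X.B (X.L u) ((X.L ^ k) w) = -X.B u ((X.L ^ (k + 1)) w) := by
  rw [X.B_skew (i - 1) (i + k) (by omega) u hu _ (L_pow_mem X k hw), ← Module.End.mul_apply,
    ← pow_succ']

theorem B_L_prim (X : LefMod A m) {i : ℤ} {k : ℕ} (h : 2 * i + k = m) {x w : X.V}
    (hx : x ∈ prim X i k) (hw : w ∈ X.deg (i - 1)) : X.B (X.L w) ((X.L ^ k) x) = 0 := by
  rw [mem_prim] at hx
  rw [B_L_L X h hw hx.1, hx.2, map_zero, neg_zero]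

/-- Submodules on which the form `B(x, L ^ k y)` is `± σ`. -/
theorem definite (X : LefMod A m) (r : ℕ) : ∀ (i : ℤ) (k : ℕ), 2 * i + k = m → i < r →
    ∃ M₁ M₂ : Submodule A X.V, M₁ ≤ X.deg i ∧ M₂ ≤ X.deg i ∧ M₁ ⊓ M₂ = ⊥ ∧
      M₁ ⊔ M₂ = X.deg i ∧
      (∀ x ∈ M₁, ∀ y ∈ M₁, X.B x ((X.L ^ k) y) = X.σ x y) ∧
      (∀ x ∈ M₂, ∀ y ∈ M₂, X.B x ((X.L ^ k) y) = -X.σ x y) ∧
      ∀ (T : Type) [AddCommGroup T] [Module ℚ T] [Module A T] [IsScalarTower ℚ A T]
        [FiniteDimensional ℚ T], (hs T M₂ : ℤ) = ∑ j ∈ Finset.range r,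
          (-1) ^ j * vv T X (i - 1 - j) := by
  induction r with
  | zero =>
    intro i k _ hi
    have hi' : i < 0 := by simpa using hi
    have hb : X.deg i = ⊥ := X.van i (Or.inl hi')
    refine ⟨⊥, ⊥, bot_le, bot_le, by simp, by rw [hb]; simp, ?_, ?_, ?_⟩
    · intro x hx y _
      rw [Submodule.mem_bot] at hx
      rw [hx]; simp
    · intro x hx y _
      rw [Submodule.mem_bot] at hx
      rw [hx]; simp
    · intro T _ _ _ _ _
      rw [hs_bot]; simp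
  | succ r ih =>
    intro i k h hi
    obtain ⟨N₁, N₂, hN₁, hN₂, hinf, hsup, h₁, h₂, hT⟩ := ih (i - 1) (k + 2)
      (by push_cast; omega) (by push_cast at hi; omega)
    have hm2 : 2 * (i - 1) + 2 ≤ (m : ℤ) := by omega
    have hLm : ∀ w ∈ X.deg (i - 1), X.L w ∈ X.deg i := by
      intro w hw
      have := X.L_mem (i - 1) w hw
      rwa [sub_add_cancel] at this
    -- the form on `L u`, `L w`
    have hLL : ∀ u ∈ X.deg (i - 1), ∀ w ∈ X.deg (i - 1),
        X.B (X.L u) ((X.L ^ k) (X.L w)) = -X.B u ((X.L ^ (k + 2)) w) := by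
      intro u hu w hw
      rw [B_L_L X h hu (hLm w hw), pow_succ X.L (k + 1), Module.End.mul_apply]
    refine ⟨prim X i k ⊔ N₂.map X.L, N₁.map X.L, ?_, ?_, ?_, ?_, ?_, ?_, ?_⟩
    · refine sup_le inf_le_left ?_
      rintro _ ⟨w, hw, rfl⟩
      exact hLm w (hN₂ hw)
    · rintro _ ⟨w, hw, rfl⟩
      exact hLm w (hN₁ hw)
    · rw [eq_bot_iff]
      rintro x ⟨hx1, a, ha, rfl⟩
      have hx1' : X.L a ∈ prim X i k ⊔ N₂.map X.L := hx1
      rw [Submodule.mem_sup] at hx1'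
      obtain ⟨p, hp, y, ⟨b, hb, rfl⟩, hpb⟩ := hx1'
      have e : p = X.L (a - b) := by
        rw [map_sub, ← hpb]; abel
      rw [e] at hp
      have h0 := prim_inf X h ((X.deg (i - 1)).sub_mem (hN₁ ha) (hN₂ hb)) hp
      have hab : a = b := sub_eq_zero.mp h0
      have ha0 : a ∈ N₁ ⊓ N₂ := ⟨ha, by rw [hab]; exact hb⟩
      rw [hinf, Submodule.mem_bot] at ha0
      rw [ha0, map_zero]
      exact Submodule.zero_mem _
    · rw [sup_assoc, ← Submodule.map_sup, sup_comm N₂ N₁, hsup, prim_sup X h]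
    · intro x hx y hy
      rw [Submodule.mem_sup] at hx hy
      obtain ⟨p, hp, _, ⟨b, hb, rfl⟩, rfl⟩ := hx
      obtain ⟨q, hq, _, ⟨c, hc, rfl⟩, rfl⟩ := hy
      have hp' := mem_prim.mp hp
      have hq' := mem_prim.mp hq
      simp only [map_add, LinearMap.add_apply]
      rw [B_prim_L X h hp (hN₂ hc), B_L_prim X h hq (hN₂ hb),
        X.hr i k h p hp'.1 hp'.2 q hq'.1 hq'.2, hLL b (hN₂ hb) c (hN₂ hc), h₂ b hb c hc,
        (X.σ_prim i k h p hp'.1 hp'.2 c (hN₂ hc)).1, (X.σ_prim i k h q hq'.1 hq'.2 b (hN₂ hb)).2,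
        X.σ_L (i - 1) hm2 b (hN₂ hb) c (hN₂ hc)]
      ring
    · rintro _ ⟨u, hu, rfl⟩ _ ⟨w, hw, rfl⟩
      rw [hLL u (hN₁ hu) w (hN₁ hw), h₁ u hu w hw, X.σ_L (i - 1) hm2 u (hN₁ hu) w (hN₁ hw)]
    · intro T _ _ _ _ _
      rw [hs_L T X h hN₁, Finset.sum_range_succ']
      have e1 : (hs T N₁ : ℤ) + hs T N₂ = vv T X (i - 1) := by
        unfold vv
        rw [← hsup, hs_sup T hinf]
        push_cast
        ring
      have e2 := hT T
      have e3 : ∑ j ∈ Finset.range r, (-1) ^ (j + 1) * vv T X (i - 1 - ((j + 1 : ℕ) : ℤ)) =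
          -∑ j ∈ Finset.range r, (-1) ^ j * vv T X (i - 1 - 1 - j) := by
        rw [← Finset.sum_neg_distrib]
        refine Finset.sum_congr rfl fun j _ => ?_
        have : i - 1 - ((j + 1 : ℕ) : ℤ) = i - 1 - 1 - j := by push_cast; ring
        rw [this, pow_succ]
        ring
      rw [e3, ← e2]
      simp only [pow_zero, one_mul, Nat.cast_zero, sub_zero]
      linarith

end Pool.Agent.X268.HS
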